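import Pool.Agent.W2helper53.MS.Final
import Pool.Agent.W279.LC.Meas2

/-!
# Mutual stationarity of the alternating sequence of cofinalities from one measurable cardinal

For every measurable cardinal `κ` there is a notion of forcing `P` with a condition `q` which
forces that `κ` is `ℵ_ω`, and that every structure with universe `κ` for a countable language has
an elementary substructure `N` such that, for all `n ≥ 2`, the supremum of `N ∩ ℵ_n` is smaller
than `ℵ_n` and has cofinality `ℵ_0` if `n` is congruent to `2` modulo `3`, and `ℵ_1` otherwise.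
-/

namespace Pool.Agent.Results.MP_2e9c36_lc.AlternatingFromOneMeasurable

open Cardinal Set Pool.Agent.W2helper53.MS Pool.Agent.V11248.Pk Pool.Agent.W931.LC

theorem normal_of {κ : Cardinal.{0}} {U : Ultrafilter κ.ord.ToType} (h0 : ℵ₀ < κ)
    (h1 : ∀ (ι : Type), #ι < κ → ∀ A : ι → Set κ.ord.ToType, (∀ i, A i ∈ U) → (⋂ i, A i) ∈ U)
    (h2 : ∀ a, {x | a < x} ∈ U)
    (h3 : ∀ g : κ.ord.ToType → κ.ord.ToType, {x | g x < x} ∈ U → ∃ a, {x | g x = a} ∈ U) :
    Normal κ U where
  unc := h0
  card := mk_ord_toType κ
  small := fun a => mk_Iio_toType_ord_lt a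
  complete := fun ι A hι hA => h1 ι hι A hA
  tail := h2
  normal := by
    classical
    intro A hA
    rcases Ultrafilter.mem_or_compl_mem U {x | ∀ a < x, x ∈ A a} with h | h
    · exact h
    · exfalso
      obtain ⟨a, ha⟩ := h3 (fun x => if h : ∃ a < x, x ∉ A a then h.choose else x)
        (Filter.mem_of_superset h fun x hx => by
          have hx' : ∃ a < x, x ∉ A a := by
            by_contra hcon
            push Not at hcon
            exact hx hcon
          change (if h : ∃ a < x, x ∉ A a then h.choose else x) < x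
          rw [dif_pos hx']
          exact hx'.choose_spec.1)
      obtain ⟨x, hx⟩ := Ultrafilter.nonempty_of_mem
        (Filter.inter_mem (Filter.inter_mem h ha) (hA a))
      obtain ⟨⟨hx1, hx2⟩, hx3⟩ := hx
      have hx' : ∃ a < x, x ∉ A a := by
        by_contra hcon
        push Not at hcon
        exact hx1 hcon
      have hx4 : (if h : ∃ a < x, x ∉ A a then h.choose else x) = a := hx2
      rw [dif_pos hx'] at hx4
      exact hx'.choose_spec.2 (by rw [hx4]; exact hx3)

theorem result (κ : Cardinal.{0}) (hκ : IsMeasurable κ) :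
    ∃ (P : Type) (_ : Preorder P) (q : P), q ∈ IsAlephOmega P κ.ord.ToType ∧
      ∀ (L : FirstOrder.Language.{0, 0}) [Countable L.Symbols],
        q ∈ MutStat P κ.ord.ToType L := by
  obtain ⟨h0, _, _, U, h1, h2, h3⟩ := Pool.Agent.W279.LC.tMEAS κ hκ
  have hN := normal_of h0 h1 h2 h3
  obtain ⟨x, _⟩ := Ultrafilter.nonempty_of_mem (Filter.univ_mem (f := (U : Filter κ.ord.ToType)))
  obtain ⟨bot, _, hbot⟩ := exists_least (K := κ.ord.ToType) (p := fun _ => True) ⟨x, trivial⟩
  have S : Su κ U {y | Good y} bot := ⟨hN, ae_good hN, fun y hy => hy, fun y => by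
    by_contra hcon
    exact hbot y (not_le.1 hcon) trivial⟩
  have hst : IsStem {y : κ.ord.ToType | Good y} bot [(bot, ∅)] := by
    refine ⟨⟨∅, [], rfl⟩, fun a ha => Or.inl ?_, List.pairwise_singleton _ _, fun a ha => ?_⟩
    · rw [List.mem_singleton.1 ha]
    · rw [List.mem_singleton.1 ha]
      exact isCol_empty hN bot
  obtain ⟨q, _, hq⟩ := exists_mutStat S (mkC S _ hst univ Filter.univ_mem (fun _ => ∅)
    fun y => isCol_empty hN y) rfl
  exact ⟨_, inferInstance, q, isAlephOmega S q, hq⟩

end Pool.Agent.Results.MP_2e9c36_lc.AlternatingFromOneMeasurable
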